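import Mathlib

/-!
# A Demazure crystal which is not a crystal of flagged skew tableaux

For `n = 4`, `λ = (2, 1, 1)` and `w = s₂ s₁ s₃` the Demazure crystal `B_{w,λ}`, which has eight
elements, is isomorphic to no crystal of flagged skew tableaux, whatever the skew shape and the
flag (nondecreasing or not).

The reason: the set of flagged tableaux of a given skew shape is closed under entrywise minimum
and maximum, so it is a distributive lattice, ranked by the sum of the entries, and the lowering
operators raise this rank by one.  The rank numbers of the Demazure crystal are `1, 2, 3, 1, 1`,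
and there is no distributive lattice with these rank numbers.
-/

set_option autoImplicit false

namespace Pool.Agent.Results.MP_5741ae_al.NotFlagged

/-! ## The signature rule -/

/-- Bracketing of a word, read from left to right: every letter `i + 1` is an opening bracket and
every letter `i` a closing bracket.  The state is a pair of lists of positions, the most recent
first: the unmatched letters `i`, and the letters `i + 1` that are unmatched so far. -/
def scan (i : ℕ) : List ℕ → ℕ → List ℕ × List ℕ → List ℕ × List ℕ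
  | [], _, s => s
  | c :: w, k, (lo, hi) =>
    if c = i + 1 then scan i w (k + 1) (lo, k :: hi)
    else if c = i then
      match hi with
      | [] => scan i w (k + 1) (k :: lo, [])
      | _ :: hi' => scan i w (k + 1) (lo, hi')
    else scan i w (k + 1) (lo, hi)

/-- `f_i` on words: the rightmost unmatched `i` becomes `i + 1`. -/
def fWord (i : ℕ) (w : List ℕ) : Option (List ℕ) :=
  match (scan i w 0 ([], [])).1 with
  | [] => none
  | k :: _ => some (w.set k (i + 1))

/-- `e_i` on words: the leftmost unmatched `i + 1` becomes `i`. -/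
def eWord (i : ℕ) (w : List ℕ) : Option (List ℕ) :=
  match (scan i w 0 ([], [])).2.getLast? with
  | none => none
  | some k => some (w.set k i)

/-! ## Crystals and isomorphisms -/

/-- A set with partially defined operators `e_i`, `f_i` (`none` stands for `0`). -/
structure Crystal where
  /-- the underlying set -/
  X : Type
  /-- the raising operators -/
  e : ℕ → X → Option X
  /-- the lowering operators -/
  f : ℕ → X → Option X

/-- The value of a partial operator, set to `none` when it is not in `S`. -/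
noncomputable def cut {X : Type} (S : Set X) (o : Option X) : Option S := by
  classical
  exact o.bind fun y => if h : y ∈ S then some ⟨y, h⟩ else none

/-- A subset `S` of a crystal, with the operators set to `0` whenever the result is not
in `S`. -/
noncomputable def Crystal.restrict (C : Crystal) (S : Set C.X) : Crystal where
  X := S
  e i x := cut S (C.e i x.1)
  f i x := cut S (C.f i x.1)

/-- Two `gl_n`-crystals are isomorphic if there is a bijection commuting with all `e_i` and `f_i`,
`1 ≤ i ≤ n - 1`. -/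
def Iso (n : ℕ) (C D : Crystal) : Prop :=
  ∃ φ : C.X ≃ D.X, ∀ i, 1 ≤ i → i < n → ∀ x : C.X,
    (C.e i x).map φ = D.e i (φ x) ∧ (C.f i x).map φ = D.f i (φ x)

/-! ## Semistandard skew tableaux -/

/-- Semistandard tableaux of the skew shape `κ/μ` with entries in `{1, ..., n}`.  Rows and columns
are numbered from `0`; outside of the skew shape the entry is `0` by convention. -/
@[ext]
structure SkewTableau (κ μ : YoungDiagram) (n : ℕ) where
  /-- the entry in row `r` and column `c` -/
  T : ℕ → ℕ → ℕ
  pos : ∀ r c, (r, c) ∈ κ → (r, c) ∉ μ → 1 ≤ T r c ∧ T r c ≤ n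
  row : ∀ r c c', c ≤ c' → (r, c) ∉ μ → (r, c') ∈ κ → T r c ≤ T r c'
  col : ∀ r r' c, r < r' → (r, c) ∉ μ → (r', c) ∈ κ → T r c < T r' c
  zero : ∀ r c, ¬ ((r, c) ∈ κ ∧ (r, c) ∉ μ) → T r c = 0

/-- The cells of `κ/μ` in reading order: the rows from the bottom one to the top one, each from
left to right. -/
def cells (κ μ : YoungDiagram) : List (ℕ × ℕ) :=
  (List.range (κ.colLen 0)).reverse.flatMap fun r =>
    (List.range' (μ.rowLen r) (κ.rowLen r - μ.rowLen r)).map fun c => (r, c)

/-- The reading word of a tableau. -/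
def SkewTableau.word {κ μ : YoungDiagram} {n : ℕ} (x : SkewTableau κ μ n) : List ℕ :=
  (cells κ μ).map fun p => x.T p.1 p.2

/-- The operator on tableaux given by an operator on reading words: the result is the tableau of
the same shape having the new reading word. -/
noncomputable def onTableaux {κ μ : YoungDiagram} {n : ℕ} (g : List ℕ → Option (List ℕ))
    (x : SkewTableau κ μ n) : Option (SkewTableau κ μ n) := by
  classical
  exact if h : ∃ y : SkewTableau κ μ n, g x.word = some y.word then some h.choose else none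

/-- The tableau crystal of the skew shape `κ/μ`. -/
noncomputable def tableauCrystal (κ μ : YoungDiagram) (n : ℕ) : Crystal where
  X := SkewTableau κ μ n
  e i x := onTableaux (eWord i) x
  f i x := onTableaux (fWord i) x

/-- The crystal of flagged skew tableaux of shape `κ/μ` with the flag `b`: every entry of the
row `r` is at most `b r`. -/
noncomputable def flaggedCrystal (κ μ : YoungDiagram) (n : ℕ) (b : ℕ → ℕ) : Crystal :=
  (tableauCrystal κ μ n).restrict
    {x : SkewTableau κ μ n | ∀ r c, (r, c) ∈ κ → (r, c) ∉ μ → x.T r c ≤ b r}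

/-! ## Demazure crystals -/

/-- `D_i S = {f_i^k x : x ∈ S, k ≥ 0, f_i^k x ≠ 0}`. -/
def demazureOp (C : Crystal) (i : ℕ) (S : Set C.X) : Set C.X :=
  {y | ∃ x ∈ S, ∃ k : ℕ, (fun o : Option C.X => o.bind (C.f i))^[k] (some x) = some y}

/-- The highest weight elements of the straight shape `lam`: the entries of the row `r` (counted
from `0`) are all equal to `r + 1`. -/
def highest (lam : YoungDiagram) (n : ℕ) : Set (tableauCrystal lam ⊥ n).X :=
  {x : SkewTableau lam ⊥ n | ∀ r c, (r, c) ∈ lam → x.T r c = r + 1}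

/-- The Demazure crystal `D_{i_1} ... D_{i_k} {u_λ}` of a word `l = (i_1, ..., i_k)`. -/
noncomputable def demazureCrystal (lam : YoungDiagram) (n : ℕ) (l : List ℕ) : Crystal :=
  (tableauCrystal lam ⊥ n).restrict
    (l.foldr (fun i S => demazureOp (tableauCrystal lam ⊥ n) i S) (highest lam n))

/-- The product `s_{i_1} ... s_{i_k}` of adjacent transpositions. -/
def wordPerm (l : List ℕ) : Equiv.Perm ℕ := (l.map fun i => Equiv.swap i (i + 1)).prod

/-- `l` is a reduced word of `w` in `S_n`: its letters are in `{1, ..., n - 1}`, its product is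
`w`, and it is as short as possible. -/
def IsReducedWord (n : ℕ) (l : List ℕ) (w : Equiv.Perm ℕ) : Prop :=
  (∀ i ∈ l, 1 ≤ i ∧ i < n) ∧ wordPerm l = w ∧
    ∀ l' : List ℕ, (∀ i ∈ l', 1 ≤ i ∧ i < n) → wordPerm l' = w → l.length ≤ l'.length

/-! ## Words -/

lemma scan_lo (i : ℕ) (w : List ℕ) : ∀ (k : ℕ) (lo hi : List ℕ) (j : ℕ),
    j ∈ (scan i w k (lo, hi)).1 → j ∈ lo ∨ ∃ m, j = k + m ∧ w[m]? = some i := by
  induction w with
  | nil => intro k lo hi j h; exact Or.inl h
  | cons c w ih =>
    intro k lo hi j h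
    have up : ∀ m, w[m]? = some i → (c :: w)[m + 1]? = some i := by
      intro m hm; simpa using hm
    unfold scan at h
    split_ifs at h with h1 h2
    · rcases ih _ _ _ _ h with h' | ⟨m, hm, hw⟩
      · exact Or.inl h'
      · exact Or.inr ⟨m + 1, by omega, up m hw⟩
    · cases hi with
      | nil =>
        rcases ih _ _ _ _ h with h' | ⟨m, hm, hw⟩
        · rcases List.mem_cons.1 h' with rfl | h'
          · exact Or.inr ⟨0, by simp, by simp [h2]⟩
          · exact Or.inl h'
        · exact Or.inr ⟨m + 1, by omega, up m hw⟩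
      | cons a hi =>
        rcases ih _ _ _ _ h with h' | ⟨m, hm, hw⟩
        · exact Or.inl h'
        · exact Or.inr ⟨m + 1, by omega, up m hw⟩
    · rcases ih _ _ _ _ h with h' | ⟨m, hm, hw⟩
      · exact Or.inl h'
      · exact Or.inr ⟨m + 1, by omega, up m hw⟩

/-- `f_i` replaces one letter `i` by `i + 1`. -/
lemma fWord_spec {i : ℕ} {w w' : List ℕ} (h : fWord i w = some w') :
    ∃ k, w[k]? = some i ∧ w' = w.set k (i + 1) := by
  unfold fWord at h
  split at h
  · exact absurd h (by simp)
  · rename_i k tl hk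
    have hmem : k ∈ (scan i w 0 ([], [])).1 := by rw [hk]; simp
    rcases scan_lo i w 0 [] [] k hmem with h' | ⟨m, hm, hw⟩
    · exact absurd h' (by simp)
    · refine ⟨k, ?_, (Option.some.inj h).symm⟩
      rw [hm, zero_add]
      exact hw

/-! ## Tableaux -/

lemma mem_cells {κ μ : YoungDiagram} {r c : ℕ} :
    (r, c) ∈ cells κ μ ↔ (r, c) ∈ κ ∧ (r, c) ∉ μ := by
  simp only [cells, List.mem_flatMap, List.mem_reverse, List.mem_range, List.mem_map,
    List.mem_range'_1, Prod.mk.injEq, YoungDiagram.mem_iff_lt_rowLen]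
  constructor
  · rintro ⟨r', h1, c', ⟨h2, h3⟩, rfl, rfl⟩
    omega
  · rintro ⟨h1, h2⟩
    refine ⟨r, ?_, c, ⟨by omega, by omega⟩, rfl, rfl⟩
    rw [← YoungDiagram.mem_iff_lt_colLen, YoungDiagram.mem_iff_lt_rowLen]
    omega

variable {κ μ : YoungDiagram} {n : ℕ}

lemma word_injective : Function.Injective (SkewTableau.word : SkewTableau κ μ n → List ℕ) := by
  intro x y h
  ext r c
  by_cases hc : (r, c) ∈ κ ∧ (r, c) ∉ μ
  · exact (List.map_inj_left.1 h) (r, c) (mem_cells.2 hc)
  · rw [x.zero r c hc, y.zero r c hc]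

lemma onTableaux_eq_some {g : List ℕ → Option (List ℕ)} {x y : SkewTableau κ μ n} :
    onTableaux g x = some y ↔ g x.word = some y.word := by
  unfold onTableaux
  constructor
  · intro h
    split_ifs at h with h1
    · have := h1.choose_spec
      rw [Option.some.inj h] at this
      exact this
  · intro h
    have h1 : ∃ y : SkewTableau κ μ n, g x.word = some y.word := ⟨y, h⟩
    rw [dif_pos h1]
    exact congrArg some (word_injective (Option.some.inj (h1.choose_spec.symm.trans h)))

/-- The entrywise order. -/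
def Le (x y : SkewTableau κ μ n) : Prop := ∀ r c, x.T r c ≤ y.T r c

/-- The entrywise minimum. -/
def meet (x y : SkewTableau κ μ n) : SkewTableau κ μ n where
  T r c := min (x.T r c) (y.T r c)
  pos r c h1 h2 := by
    have := x.pos r c h1 h2
    have := y.pos r c h1 h2
    omega
  row r c c' h h1 h2 := by
    have := x.row r c c' h h1 h2
    have := y.row r c c' h h1 h2
    omega
  col r r' c h h1 h2 := by
    have := x.col r r' c h h1 h2
    have := y.col r r' c h h1 h2
    omega
  zero r c h := by rw [x.zero r c h, y.zero r c h]; rfl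

/-- The entrywise maximum. -/
def join (x y : SkewTableau κ μ n) : SkewTableau κ μ n where
  T r c := max (x.T r c) (y.T r c)
  pos r c h1 h2 := by
    have := x.pos r c h1 h2
    have := y.pos r c h1 h2
    omega
  row r c c' h h1 h2 := by
    have := x.row r c c' h h1 h2
    have := y.row r c c' h h1 h2
    omega
  col r r' c h h1 h2 := by
    have := x.col r r' c h h1 h2
    have := y.col r r' c h h1 h2
    omega
  zero r c h := by rw [x.zero r c h, y.zero r c h]; rfl

/-- The rank: the sum of the entries. -/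
def rk (x : SkewTableau κ μ n) : ℕ := x.word.sum

lemma rk_meet_add_rk_join (x y : SkewTableau κ μ n) :
    rk (meet x y) + rk (join x y) = rk x + rk y := by
  unfold rk SkewTableau.word
  induction cells κ μ with
  | nil => rfl
  | cons p l ih =>
    simp only [List.map_cons, List.sum_cons]
    have : (meet x y).T p.1 p.2 + (join x y).T p.1 p.2 = x.T p.1 p.2 + y.T p.1 p.2 :=
      min_add_max _ _
    omega

lemma rk_mono {x y : SkewTableau κ μ n} (h : Le x y) : rk x ≤ rk y := by
  unfold rk SkewTableau.word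
  induction cells κ μ with
  | nil => exact le_rfl
  | cons p l ih =>
    simp only [List.map_cons, List.sum_cons]
    have := h p.1 p.2
    omega

lemma eq_of_le_of_rk {x y : SkewTableau κ μ n} (h : Le x y) (hr : rk y ≤ rk x) : x = y := by
  have key : ∀ l : List (ℕ × ℕ), (l.map fun p => x.T p.1 p.2).sum ≤
      (l.map fun p => y.T p.1 p.2).sum ∧ ((l.map fun p => y.T p.1 p.2).sum ≤
      (l.map fun p => x.T p.1 p.2).sum → ∀ p ∈ l, x.T p.1 p.2 = y.T p.1 p.2) := by
    intro l
    induction l with
    | nil => simp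
    | cons p l ih =>
      simp only [List.map_cons, List.sum_cons]
      have := h p.1 p.2
      refine ⟨by omega, fun hs q hq => ?_⟩
      rcases List.mem_cons.1 hq with rfl | hq
      · omega
      · exact ih.2 (by omega) q hq
  apply word_injective
  unfold SkewTableau.word
  exact List.map_congr_left ((key _).2 hr)

lemma step {i : ℕ} {x y : SkewTableau κ μ n} (h : onTableaux (fWord i) x = some y) :
    Le x y ∧ rk y = rk x + 1 := by
  obtain ⟨k, hk, hy⟩ := fWord_spec (onTableaux_eq_some.1 h)
  constructor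
  · intro r c
    by_cases hc : (r, c) ∈ κ ∧ (r, c) ∉ μ
    · obtain ⟨j, hj⟩ := List.mem_iff_getElem?.1 (mem_cells.2 hc)
      have hx : x.word[j]? = some (x.T r c) := by
        simp [SkewTableau.word, hj]
      have hyj : y.word[j]? = some (y.T r c) := by
        simp [SkewTableau.word, hj]
      rw [hy, List.getElem?_set] at hyj
      split_ifs at hyj with h1 h2
      · subst h1
        rw [hx] at hk
        have := Option.some.inj hk
        have := Option.some.inj hyj
        omega
      · rw [hx] at hyj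
        exact (Option.some.inj hyj).le
    · rw [x.zero r c hc, y.zero r c hc]
  · unfold rk
    rw [hy]
    generalize x.word = w at hk
    clear hy h
    induction w generalizing k with
    | nil => simp at hk
    | cons a w ih =>
      cases k with
      | zero =>
        simp at hk
        simp [hk]
        omega
      | succ k =>
        simp at hk
        have := ih k hk
        simp only [List.set_cons_succ, List.sum_cons]
        omega

/-- The combinatorial heart: a set of tableaux closed under entrywise minimum and maximum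
cannot consist of eight elements with the covering relations below. -/
lemma no_lattice (S : Set (SkewTableau κ μ n)) (hmeet : ∀ x ∈ S, ∀ y ∈ S, meet x y ∈ S)
    (hjoin : ∀ x ∈ S, ∀ y ∈ S, join x y ∈ S) (a b c d e g h i : SkewTableau κ μ n)
    (hS : ∀ x ∈ S, x = a ∨ x = b ∨ x = c ∨ x = d ∨ x = e ∨ x = g ∨ x = h ∨ x = i)
    (hb : b ∈ S) (hc : c ∈ S) (hd : d ∈ S) (he : e ∈ S) (hg : g ∈ S)
    (hbc : b ≠ c) (hde : d ≠ e) (hdg : d ≠ g) (heg : e ≠ g)
    (rab : rk b = rk a + 1) (rac : rk c = rk a + 1) (rbd : rk d = rk b + 1)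
    (rbe : rk e = rk b + 1) (rcg : rk g = rk c + 1) (rdh : rk h = rk d + 1)
    (rhi : rk i = rk h + 1)
    (lbd : Le b d) (lcd : Le c d) (lbe : Le b e) (lcg : Le c g) : False := by
  -- an element of rank `3` is equal to `h`
  have rank3 : ∀ x ∈ S, rk x = rk a + 3 → x = h := by
    intro x hx hr
    rcases hS x hx with rfl | rfl | rfl | rfl | rfl | rfl | rfl | rfl <;>
      first | rfl | (exfalso; omega)
  have rank1 : ∀ x ∈ S, rk x = rk a + 1 → x = b ∨ x = c := by
    intro x hx hr
    rcases hS x hx with rfl | rfl | rfl | rfl | rfl | rfl | rfl | rfl <;>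
      first | exact Or.inl rfl | exact Or.inr rfl | (exfalso; omega)
  have meet_le_left : ∀ x y : SkewTableau κ μ n, Le (meet x y) x := fun x y r c => min_le_left _ _
  have meet_le_right : ∀ x y : SkewTableau κ μ n, Le (meet x y) y :=
    fun x y r c => min_le_right _ _
  have le_join_left : ∀ x y : SkewTableau κ μ n, Le x (join x y) := fun x y r c => le_max_left _ _
  have le_join_right : ∀ x y : SkewTableau κ μ n, Le y (join x y) :=
    fun x y r c => le_max_right _ _
  have le_meet : ∀ x y z : SkewTableau κ μ n, Le z x → Le z y → Le z (meet x y) :=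
    fun x y z h1 h2 r c => le_min (h1 r c) (h2 r c)
  have join_le : ∀ x y z : SkewTableau κ μ n, Le x z → Le y z → Le (join x y) z :=
    fun x y z h1 h2 r c => max_le (h1 r c) (h2 r c)
  -- two different elements of the same rank
  have meet_lt : ∀ x y : SkewTableau κ μ n, x ≠ y → rk x = rk y → rk (meet x y) < rk x := by
    intro x y hne hr
    by_contra hlt
    have h1 := eq_of_le_of_rk (meet_le_left x y) (not_lt.1 hlt)
    have h2 : Le x y := by
      have := meet_le_right x y
      rwa [h1] at this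
    exact hne (eq_of_le_of_rk h2 hr.ge)
  -- `e ≤ h`
  have hde_join : join d e = h := by
    apply rank3 _ (hjoin d hd e he)
    have h1 := meet_lt d e hde (by omega)
    have h2 := rk_mono (le_meet d e b lbd lbe)
    have h3 := rk_meet_add_rk_join d e
    omega
  have hdg_join : join d g = h := by
    apply rank3 _ (hjoin d hd g hg)
    have h1 := meet_lt d g hdg (by omega)
    have h2 := rk_mono (le_meet d g c lcd lcg)
    have h3 := rk_meet_add_rk_join d g
    omega
  have leh : Le e h := by rw [← hde_join]; exact le_join_right d e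
  have lgh : Le g h := by rw [← hdg_join]; exact le_join_right d g
  have hmr : rk (meet e g) = rk a + 1 := by
    have h1 := meet_lt e g heg (by omega)
    have h2 := rk_mono (join_le e g h leh lgh)
    have h3 := rk_meet_add_rk_join e g
    omega
  have hbcm := meet_lt b c hbc (by omega)
  have hbcs := rk_meet_add_rk_join b c
  rcases rank1 _ (hmeet e he g hg) hmr with hm | hm
  · have lbg : Le b g := by rw [← hm]; exact meet_le_right e g
    have h1 := eq_of_le_of_rk (join_le b c g lbg lcg) (by omega)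
    have h2 := eq_of_le_of_rk (join_le b c d lbd lcd) (by omega)
    exact hdg (h2.symm.trans h1)
  · have lce : Le c e := by rw [← hm]; exact meet_le_left e g
    have h1 := eq_of_le_of_rk (join_le b c e lbe lce) (by omega)
    have h2 := eq_of_le_of_rk (join_le b c d lbd lcd) (by omega)
    exact hde (h2.symm.trans h1)

/-! ## Subsets of crystals -/

lemma cut_eq_some {X : Type} {S : Set X} {o : Option X} {y : S} :
    cut S o = some y ↔ o = some y.1 := by
  classical
  unfold cut
  constructor
  · intro h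
    cases o with
    | none => simp at h
    | some z =>
      simp only [Option.bind_some] at h
      split_ifs at h with hz
      rw [← Option.some.inj h]
  · rintro rfl
    simp [y.2]

lemma mem_demazureOp_of_mem {C : Crystal} {i : ℕ} {S : Set C.X} {x : C.X} (h : x ∈ S) :
    x ∈ demazureOp C i S := ⟨x, h, 0, rfl⟩

lemma mem_demazureOp_of_f {C : Crystal} {i : ℕ} {S : Set C.X} {x y : C.X}
    (h : x ∈ demazureOp C i S) (hf : C.f i x = some y) : y ∈ demazureOp C i S := by
  obtain ⟨z, hz, k, hk⟩ := h
  refine ⟨z, hz, k + 1, ?_⟩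
  rw [Function.iterate_succ_apply', hk]
  exact hf

lemma demazureOp_words {lam : YoungDiagram} {n i : ℕ} (W : List (List ℕ))
    (hW : ∀ w ∈ W, ∀ w', fWord i w = some w' → w' ∈ W)
    {S : Set (tableauCrystal lam ⊥ n).X} (hS : ∀ x : SkewTableau lam ⊥ n, x ∈ S → x.word ∈ W)
    (y : SkewTableau lam ⊥ n) (hy : y ∈ demazureOp (tableauCrystal lam ⊥ n) i S) :
    y.word ∈ W := by
  obtain ⟨x, hx, k, hk⟩ := hy
  induction k generalizing y with
  | zero =>
    have : x = y := Option.some.inj hk
    rw [← this]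
    exact hS x hx
  | succ k ih =>
    rw [Function.iterate_succ_apply'] at hk
    cases ho : (fun o : Option (tableauCrystal lam ⊥ n).X =>
        o.bind ((tableauCrystal lam ⊥ n).f i))^[k] (some x) with
    | none => rw [ho] at hk; simp at hk
    | some z =>
      rw [ho] at hk
      exact hW _ (ih z ho) _ (onTableaux_eq_some.1 hk)

/-! ## The Demazure crystal of `(2, 1, 1)` and `s₂ s₁ s₃` -/

/-- The partition `(2, 1, 1)`. -/
def lam : YoungDiagram := YoungDiagram.ofRowLens [2, 1, 1] (by decide)

lemma mem_lam {r c : ℕ} : (r, c) ∈ lam ↔ (r = 0 ∧ c < 2) ∨ (r = 1 ∧ c < 1) ∨ (r = 2 ∧ c < 1) := by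
  unfold lam
  rw [YoungDiagram.mem_ofRowLens]
  constructor
  · rintro ⟨h1, h2⟩
    simp only [List.length_cons, List.length_nil] at h1
    have : r = 0 ∨ r = 1 ∨ r = 2 := by omega
    rcases this with rfl | rfl | rfl
    · left; exact ⟨rfl, by simpa using h2⟩
    · right; left; exact ⟨rfl, by simpa using h2⟩
    · right; right; exact ⟨rfl, by simpa using h2⟩
  · rintro (⟨rfl, h⟩ | ⟨rfl, h⟩ | ⟨rfl, h⟩)
    · exact ⟨by simp, by simpa using h⟩
    · exact ⟨by simp, by simpa using h⟩
    · exact ⟨by simp, by simpa using h⟩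

lemma rowLen_eq {ν : YoungDiagram} {r m : ℕ} (h : ∀ c, (r, c) ∈ ν ↔ c < m) :
    ν.rowLen r = m := by
  have h1 : ∀ c, c < ν.rowLen r ↔ c < m := fun c => by
    rw [← YoungDiagram.mem_iff_lt_rowLen]; exact h c
  have h2 := h1 m
  have h3 := h1 (ν.rowLen r)
  omega

lemma colLen_eq {ν : YoungDiagram} {c m : ℕ} (h : ∀ r, (r, c) ∈ ν ↔ r < m) :
    ν.colLen c = m := by
  have h1 : ∀ r, r < ν.colLen c ↔ r < m := fun r => by
    rw [← YoungDiagram.mem_iff_lt_colLen]; exact h r
  have h2 := h1 m
  have h3 := h1 (ν.colLen c)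
  omega

lemma cells_lam : cells lam ⊥ = [(2, 0), (1, 0), (0, 0), (0, 1)] := by
  have hb : ∀ r, (⊥ : YoungDiagram).rowLen r = 0 := fun r =>
    rowLen_eq fun c => by simp
  have h0 : lam.rowLen 0 = 2 := rowLen_eq fun c => by rw [mem_lam]; omega
  have h1 : lam.rowLen 1 = 1 := rowLen_eq fun c => by rw [mem_lam]; omega
  have h2 : lam.rowLen 2 = 1 := rowLen_eq fun c => by rw [mem_lam]; omega
  have hc : lam.colLen 0 = 3 := colLen_eq fun c => by rw [mem_lam]; omega
  unfold cells
  rw [hc]
  have : (List.range 3).reverse = [2, 1, 0] := by decide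
  rw [this]
  simp only [List.flatMap_cons, List.flatMap_nil, hb, h0, h1, h2]
  rfl

/-- The tableau of shape `(2, 1, 1)` with first row `x, y` and first column `x, z, t`. -/
def mk4 (x y z t : ℕ) (h : 1 ≤ x ∧ x ≤ y ∧ x < z ∧ z < t ∧ y ≤ 4 ∧ t ≤ 4) :
    SkewTableau lam ⊥ 4 where
  T r c := if r = 0 ∧ c = 0 then x else if r = 0 ∧ c = 1 then y else
    if r = 1 ∧ c = 0 then z else if r = 2 ∧ c = 0 then t else 0
  pos r c h1 _ := by
    rw [mem_lam] at h1
    split_ifs <;> omega
  row r c c' hc _ h2 := by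
    rw [mem_lam] at h2
    split_ifs <;> omega
  col r r' c hr _ h2 := by
    rw [mem_lam] at h2
    split_ifs <;> omega
  zero r c h1 := by
    have h2 : ¬ (r, c) ∈ lam := fun h2 => h1 ⟨h2, YoungDiagram.notMem_bot _⟩
    rw [mem_lam] at h2
    split_ifs <;> omega

lemma word_mk4 (x y z t : ℕ) (h) : (mk4 x y z t h).word = [t, z, x, y] := by
  unfold SkewTableau.word
  rw [cells_lam]
  simp [mk4]

/-- The eight words. -/
def W : List (List ℕ) := [[3, 2, 1, 1], [3, 2, 1, 2], [4, 2, 1, 1], [4, 2, 1, 2], [3, 2, 1, 3],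
  [4, 3, 1, 1], [4, 2, 1, 3], [4, 3, 1, 3]]

/-- The underlying set of the Demazure crystal. -/
noncomputable def DS : Set (SkewTableau lam ⊥ 4) :=
  demazureOp (tableauCrystal lam ⊥ 4) 2 (demazureOp (tableauCrystal lam ⊥ 4) 1
    (demazureOp (tableauCrystal lam ⊥ 4) 3 (highest lam 4)))

lemma closed_of_all {i : ℕ} {W : List (List ℕ)}
    (h : W.all (fun w => (fWord i w).all (fun w' => decide (w' ∈ W))) = true) :
    ∀ w ∈ W, ∀ w', fWord i w = some w' → w' ∈ W := by
  intro w hw w' hw'
  have h1 := List.all_eq_true.1 h w hw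
  rw [hw'] at h1
  simpa using h1

lemma mem_W_of_mem_DS (x : SkewTableau lam ⊥ 4) (hx : x ∈ DS) : x.word ∈ W := by
  refine demazureOp_words W (closed_of_all (by decide)) (fun x hx => ?_) x hx
  have h1 := demazureOp_words [[3, 2, 1, 1], [4, 2, 1, 1], [3, 2, 1, 2], [4, 2, 1, 2]]
    (closed_of_all (by decide)) (fun x hx => ?_) x hx
  · revert h1
    generalize x.word = w
    intro h1
    simp only [List.mem_cons, List.not_mem_nil, or_false] at h1
    rcases h1 with rfl | rfl | rfl | rfl <;> decide
  · have h2 := demazureOp_words [[3, 2, 1, 1], [4, 2, 1, 1]]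
      (closed_of_all (by decide)) (fun x hx => ?_) x hx
    · revert h2
      generalize x.word = w
      intro h2
      simp only [List.mem_cons, List.not_mem_nil, or_false] at h2
      rcases h2 with rfl | rfl <;> decide
    · have h3 : ∀ r c, (r, c) ∈ lam → x.T r c = r + 1 := hx
      have h4 : x.word = [3, 2, 1, 1] := by
        unfold SkewTableau.word
        rw [cells_lam]
        simp only [List.map_cons, List.map_nil]
        rw [h3 2 0 (mem_lam.2 (by omega)), h3 1 0 (mem_lam.2 (by omega)),
          h3 0 0 (mem_lam.2 (by omega)), h3 0 1 (mem_lam.2 (by omega))]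
      rw [h4]
      decide

/-- `f_i x = y` for two tableaux of shape `(2, 1, 1)`. -/
def Edge (i : ℕ) (x y : SkewTableau lam ⊥ 4) : Prop := fWord i x.word = some y.word

lemma Edge.f {i : ℕ} {x y : SkewTableau lam ⊥ 4} (h : Edge i x y) :
    (tableauCrystal lam ⊥ 4).f i x = some y := onTableaux_eq_some.2 h

theorem main {κ μ : YoungDiagram} (b : ℕ → ℕ) :
    ¬ Iso 4 (demazureCrystal lam 4 [2, 1, 3]) (flaggedCrystal κ μ 4 b) := by
  rintro ⟨φ, hφ⟩
  let ta := mk4 1 1 2 3 (by omega)
  let tb := mk4 1 2 2 3 (by omega)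
  let tc := mk4 1 1 2 4 (by omega)
  let td := mk4 1 2 2 4 (by omega)
  let te := mk4 1 3 2 3 (by omega)
  let tg := mk4 1 1 3 4 (by omega)
  let th := mk4 1 3 2 4 (by omega)
  let ti := mk4 1 3 3 4 (by omega)
  have wa : ta.word = [3, 2, 1, 1] := word_mk4 _ _ _ _ _
  have wb : tb.word = [3, 2, 1, 2] := word_mk4 _ _ _ _ _
  have wc : tc.word = [4, 2, 1, 1] := word_mk4 _ _ _ _ _
  have wd : td.word = [4, 2, 1, 2] := word_mk4 _ _ _ _ _
  have we : te.word = [3, 2, 1, 3] := word_mk4 _ _ _ _ _
  have wg : tg.word = [4, 3, 1, 1] := word_mk4 _ _ _ _ _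
  have wh : th.word = [4, 2, 1, 3] := word_mk4 _ _ _ _ _
  have wi : ti.word = [4, 3, 1, 3] := word_mk4 _ _ _ _ _
  have eab : Edge 1 ta tb := by unfold Edge; rw [wa, wb]; decide
  have eac : Edge 3 ta tc := by unfold Edge; rw [wa, wc]; decide
  have ebd : Edge 3 tb td := by unfold Edge; rw [wb, wd]; decide
  have ecd : Edge 1 tc td := by unfold Edge; rw [wc, wd]; decide
  have ebe : Edge 2 tb te := by unfold Edge; rw [wb, we]; decide
  have ecg : Edge 2 tc tg := by unfold Edge; rw [wc, wg]; decide
  have edh : Edge 2 td th := by unfold Edge; rw [wd, wh]; decide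
  have ehi : Edge 2 th ti := by unfold Edge; rw [wh, wi]; decide
  -- membership
  have ma0 : ta ∈ highest lam 4 := by
    intro r c h
    rw [mem_lam] at h
    change (if r = 0 ∧ c = 0 then 1 else if r = 0 ∧ c = 1 then 1 else
      if r = 1 ∧ c = 0 then 2 else if r = 2 ∧ c = 0 then 3 else 0) = r + 1
    split_ifs <;> omega
  have ma3 := mem_demazureOp_of_mem (i := 3) ma0
  have mc3 := mem_demazureOp_of_f ma3 eac.f
  have ma1 := mem_demazureOp_of_mem (i := 1) ma3
  have mc1 := mem_demazureOp_of_mem (i := 1) mc3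
  have mb1 := mem_demazureOp_of_f ma1 eab.f
  have md1 := mem_demazureOp_of_f mc1 ecd.f
  have ma : ta ∈ DS := mem_demazureOp_of_mem (i := 2) ma1
  have mb : tb ∈ DS := mem_demazureOp_of_mem (i := 2) mb1
  have mc : tc ∈ DS := mem_demazureOp_of_mem (i := 2) mc1
  have md : td ∈ DS := mem_demazureOp_of_mem (i := 2) md1
  have me : te ∈ DS := mem_demazureOp_of_f mb ebe.f
  have mg : tg ∈ DS := mem_demazureOp_of_f mc ecg.f
  have mh : th ∈ DS := mem_demazureOp_of_f md edh.f
  have mi : ti ∈ DS := mem_demazureOp_of_f mh ehi.f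
  -- transport of the edges
  have tr : ∀ (i : ℕ) (x y : SkewTableau lam ⊥ 4) (hx : x ∈ DS) (hy : y ∈ DS), 1 ≤ i → i < 4 →
      Edge i x y → onTableaux (fWord i) (φ ⟨x, hx⟩).1 = some (φ ⟨y, hy⟩).1 := by
    intro i x y hx hy h1 h4 h
    have h5 : (demazureCrystal lam 4 [2, 1, 3]).f i ⟨x, hx⟩ = some ⟨y, hy⟩ :=
      cut_eq_some.2 h.f
    have h6 := (hφ i h1 h4 ⟨x, hx⟩).2
    rw [h5] at h6
    exact cut_eq_some.1 h6.symm
  have fab := step (tr 1 ta tb ma mb (by omega) (by omega) eab)
  have fac := step (tr 3 ta tc ma mc (by omega) (by omega) eac)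
  have fbd := step (tr 3 tb td mb md (by omega) (by omega) ebd)
  have fcd := step (tr 1 tc td mc md (by omega) (by omega) ecd)
  have fbe := step (tr 2 tb te mb me (by omega) (by omega) ebe)
  have fcg := step (tr 2 tc tg mc mg (by omega) (by omega) ecg)
  have fdh := step (tr 2 td th md mh (by omega) (by omega) edh)
  have fhi := step (tr 2 th ti mh mi (by omega) (by omega) ehi)
  have inj : ∀ (x y : SkewTableau lam ⊥ 4) (hx : x ∈ DS) (hy : y ∈ DS),
      x.word ≠ y.word → (φ ⟨x, hx⟩).1 ≠ (φ ⟨y, hy⟩).1 := by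
    intro x y hx hy h h'
    have h1 : (⟨x, hx⟩ : DS) = ⟨y, hy⟩ := φ.injective (Subtype.ext h')
    exact h (congrArg SkewTableau.word (congrArg Subtype.val h1))
  refine no_lattice {x : SkewTableau κ μ 4 | ∀ r c, (r, c) ∈ κ → (r, c) ∉ μ → x.T r c ≤ b r}
    (fun x hx y _ r c h1 h2 => le_trans (min_le_left _ _) (hx r c h1 h2))
    (fun x hx y hy r c h1 h2 => max_le (hx r c h1 h2) (hy r c h1 h2))
    (φ ⟨ta, ma⟩).1 (φ ⟨tb, mb⟩).1 (φ ⟨tc, mc⟩).1 (φ ⟨td, md⟩).1 (φ ⟨te, me⟩).1 (φ ⟨tg, mg⟩).1
    (φ ⟨th, mh⟩).1 (φ ⟨ti, mi⟩).1 ?_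
    (φ ⟨tb, mb⟩).2 (φ ⟨tc, mc⟩).2 (φ ⟨td, md⟩).2 (φ ⟨te, me⟩).2 (φ ⟨tg, mg⟩).2
    (inj _ _ _ _ (by rw [wb, wc]; decide)) (inj _ _ _ _ (by rw [wd, we]; decide))
    (inj _ _ _ _ (by rw [wd, wg]; decide)) (inj _ _ _ _ (by rw [we, wg]; decide))
    fab.2 fac.2 fbd.2 fbe.2 fcg.2 fdh.2 fhi.2 fbd.1 fcd.1 fbe.1 fcg.1
  intro x hx
  obtain ⟨⟨y, hy⟩, hyx⟩ := φ.surjective ⟨x, hx⟩
  have hyW := mem_W_of_mem_DS y hy
  have fin : ∀ (z : SkewTableau lam ⊥ 4) (hz : z ∈ DS), y.word = z.word →
      x = (φ ⟨z, hz⟩).1 := by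
    intro z hz h
    have : y = z := word_injective h
    subst this
    rw [hyx]
  simp only [W, List.mem_cons, List.not_mem_nil, or_false] at hyW
  rcases hyW with h | h | h | h | h | h | h | h
  · exact Or.inl (fin ta ma (h.trans wa.symm))
  · exact Or.inr (Or.inl (fin tb mb (h.trans wb.symm)))
  · exact Or.inr (Or.inr (Or.inl (fin tc mc (h.trans wc.symm))))
  · exact Or.inr (Or.inr (Or.inr (Or.inl (fin td md (h.trans wd.symm)))))
  · exact Or.inr (Or.inr (Or.inr (Or.inr (Or.inl (fin te me (h.trans we.symm))))))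
  · exact Or.inr (Or.inr (Or.inr (Or.inr (Or.inr (Or.inl (fin tg mg (h.trans wg.symm)))))))
  · exact Or.inr (Or.inr (Or.inr (Or.inr (Or.inr (Or.inr (Or.inl (fin th mh (h.trans wh.symm))))))))
  · exact Or.inr (Or.inr (Or.inr (Or.inr (Or.inr (Or.inr (Or.inr (fin ti mi (h.trans wi.symm))))))))

/-! ## The other reduced word -/

/-- The four words of the elements of `D_1 D_3 {u} = D_3 D_1 {u}`. -/
def W1 : List (List ℕ) := [[3, 2, 1, 1], [4, 2, 1, 1], [3, 2, 1, 2], [4, 2, 1, 2]]

lemma word_of_highest (x : SkewTableau lam ⊥ 4) (hx : x ∈ highest lam 4) :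
    x.word = [3, 2, 1, 1] := by
  have h3 : ∀ r c, (r, c) ∈ lam → x.T r c = r + 1 := hx
  unfold SkewTableau.word
  rw [cells_lam]
  simp only [List.map_cons, List.map_nil]
  rw [h3 2 0 (mem_lam.2 (by omega)), h3 1 0 (mem_lam.2 (by omega)),
    h3 0 0 (mem_lam.2 (by omega)), h3 0 1 (mem_lam.2 (by omega))]

/-- The tableau with the reading word `3211`. -/
def ua : SkewTableau lam ⊥ 4 := mk4 1 1 2 3 (by omega)
/-- The tableau with the reading word `3212`. -/
def ub : SkewTableau lam ⊥ 4 := mk4 1 2 2 3 (by omega)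
/-- The tableau with the reading word `4211`. -/
def uc : SkewTableau lam ⊥ 4 := mk4 1 1 2 4 (by omega)
/-- The tableau with the reading word `4212`. -/
def ud : SkewTableau lam ⊥ 4 := mk4 1 2 2 4 (by omega)

lemma wua : ua.word = [3, 2, 1, 1] := word_mk4 _ _ _ _ _
lemma wub : ub.word = [3, 2, 1, 2] := word_mk4 _ _ _ _ _
lemma wuc : uc.word = [4, 2, 1, 1] := word_mk4 _ _ _ _ _
lemma wud : ud.word = [4, 2, 1, 2] := word_mk4 _ _ _ _ _

lemma ua_mem : ua ∈ highest lam 4 := by
  intro r c h
  rw [mem_lam] at h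
  change (if r = 0 ∧ c = 0 then 1 else if r = 0 ∧ c = 1 then 1 else
    if r = 1 ∧ c = 0 then 2 else if r = 2 ∧ c = 0 then 3 else 0) = r + 1
  split_ifs <;> omega

lemma eq_of_words {S : Set (SkewTableau lam ⊥ 4)} (h : ∀ x ∈ S, x.word ∈ W1) (ha : ua ∈ S)
    (hb : ub ∈ S) (hc : uc ∈ S) (hd : ud ∈ S) :
    S = {x : SkewTableau lam ⊥ 4 | x.word ∈ W1} := by
  ext x
  refine ⟨h x, fun hx => ?_⟩
  have hx' : x.word ∈ W1 := hx
  simp only [W1, List.mem_cons, List.not_mem_nil, or_false] at hx'
  rcases hx' with h | h | h | h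
  · rwa [word_injective (h.trans wua.symm)]
  · rwa [word_injective (h.trans wuc.symm)]
  · rwa [word_injective (h.trans wub.symm)]
  · rwa [word_injective (h.trans wud.symm)]

lemma D13 : demazureOp (tableauCrystal lam ⊥ 4) 1 (demazureOp (tableauCrystal lam ⊥ 4) 3
    (highest lam 4)) = {x : SkewTableau lam ⊥ 4 | x.word ∈ W1} := by
  have eab : Edge 1 ua ub := by unfold Edge; rw [wua, wub]; decide
  have eac : Edge 3 ua uc := by unfold Edge; rw [wua, wuc]; decide
  have ecd : Edge 1 uc ud := by unfold Edge; rw [wuc, wud]; decide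
  have ma := mem_demazureOp_of_mem (i := 3) ua_mem
  have mc := mem_demazureOp_of_f ma eac.f
  refine eq_of_words (fun x hx => ?_) (mem_demazureOp_of_mem ma)
    (mem_demazureOp_of_f (mem_demazureOp_of_mem ma) eab.f) (mem_demazureOp_of_mem mc)
    (mem_demazureOp_of_f (mem_demazureOp_of_mem mc) ecd.f)
  refine demazureOp_words W1 (closed_of_all (by decide)) (fun x hx => ?_) x hx
  have h2 := demazureOp_words [[3, 2, 1, 1], [4, 2, 1, 1]] (closed_of_all (by decide))
    (fun x hx => by rw [word_of_highest x hx]; decide) x hx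
  revert h2
  generalize x.word = w
  intro h2
  simp only [List.mem_cons, List.not_mem_nil, or_false] at h2
  rcases h2 with rfl | rfl <;> decide

lemma D31 : demazureOp (tableauCrystal lam ⊥ 4) 3 (demazureOp (tableauCrystal lam ⊥ 4) 1
    (highest lam 4)) = {x : SkewTableau lam ⊥ 4 | x.word ∈ W1} := by
  have eab : Edge 1 ua ub := by unfold Edge; rw [wua, wub]; decide
  have eac : Edge 3 ua uc := by unfold Edge; rw [wua, wuc]; decide
  have ebd : Edge 3 ub ud := by unfold Edge; rw [wub, wud]; decide
  have ma := mem_demazureOp_of_mem (i := 1) ua_mem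
  have mb := mem_demazureOp_of_f ma eab.f
  refine eq_of_words (fun x hx => ?_) (mem_demazureOp_of_mem ma) (mem_demazureOp_of_mem mb)
    (mem_demazureOp_of_f (mem_demazureOp_of_mem ma) eac.f)
    (mem_demazureOp_of_f (mem_demazureOp_of_mem mb) ebd.f)
  refine demazureOp_words W1 (closed_of_all (by decide)) (fun x hx => ?_) x hx
  have h2 := demazureOp_words [[3, 2, 1, 1], [3, 2, 1, 2]] (closed_of_all (by decide))
    (fun x hx => by rw [word_of_highest x hx]; decide) x hx
  revert h2
  generalize x.word = w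
  intro h2
  simp only [List.mem_cons, List.not_mem_nil, or_false] at h2
  rcases h2 with rfl | rfl <;> decide

lemma demazure_eq : demazureCrystal lam 4 [2, 3, 1] = demazureCrystal lam 4 [2, 1, 3] := by
  have h : demazureOp (tableauCrystal lam ⊥ 4) 3 (demazureOp (tableauCrystal lam ⊥ 4) 1
      (highest lam 4)) = demazureOp (tableauCrystal lam ⊥ 4) 1
      (demazureOp (tableauCrystal lam ⊥ 4) 3 (highest lam 4)) := D31.trans D13.symm
  unfold demazureCrystal
  simp only [List.foldr_cons, List.foldr_nil]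
  rw [h]

lemma not_short (l : List ℕ) (hl : ∀ i ∈ l, 1 ≤ i ∧ i < 4) (h : wordPerm l = wordPerm [2, 1, 3]) :
    3 ≤ l.length := by
  by_contra hlt
  have h1 := congrArg (fun p : Equiv.Perm ℕ => (p 1, p 2, p 3, p 4)) h
  rcases l with _ | ⟨i, _ | ⟨j, _ | ⟨k, l⟩⟩⟩
  · revert h1; decide
  · have hi := hl i (by simp)
    obtain ⟨hi1, hi2⟩ := hi
    interval_cases i <;> revert h1 <;> decide
  · have hi := hl i (by simp)
    have hj := hl j (by simp)
    obtain ⟨hi1, hi2⟩ := hi
    obtain ⟨hj1, hj2⟩ := hj
    interval_cases i <;> interval_cases j <;> revert h1 <;> decide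
  · simp at hlt

lemma reduced_213 : IsReducedWord 4 [2, 1, 3] (wordPerm [2, 1, 3]) :=
  ⟨by decide, rfl, fun l hl h => not_short l hl h⟩

lemma reduced_words (l : List ℕ) (h : IsReducedWord 4 l (wordPerm [2, 1, 3])) :
    l = [2, 1, 3] ∨ l = [2, 3, 1] := by
  obtain ⟨hl, hw, hmin⟩ := h
  have h3 : l.length ≤ 3 := hmin [2, 1, 3] (by decide) rfl
  have h3' := not_short l hl hw
  have h1 := congrArg (fun p : Equiv.Perm ℕ => (p 1, p 2, p 3, p 4)) hw
  rcases l with _ | ⟨i, _ | ⟨j, _ | ⟨k, _ | ⟨m, l⟩⟩⟩⟩
  · simp at h3'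
  · simp at h3'
  · simp at h3'
  · obtain ⟨hi1, hi2⟩ := hl i (by simp)
    obtain ⟨hj1, hj2⟩ := hl j (by simp)
    obtain ⟨hk1, hk2⟩ := hl k (by simp)
    interval_cases i <;> interval_cases j <;> interval_cases k <;> revert h1 <;> decide
  · exfalso
    simp only [List.length_cons] at h3
    omega

/-- **Q1 of MP_5741ae_al, in the negative.**  For `n = 4`, `λ = (2, 1, 1)` and the permutation
`w = s₂ s₁ s₃`, the Demazure crystal `B_{w,λ}`, computed with any reduced word of `w`, is
isomorphic to no crystal of flagged skew tableaux, whatever the skew shape `κ/μ` and the flag `b`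
(nondecreasing or not). -/
theorem result : ∃ (lam : YoungDiagram) (w : Equiv.Perm ℕ),
    lam.rowLens = [2, 1, 1] ∧ w = wordPerm [2, 1, 3] ∧ IsReducedWord 4 [2, 1, 3] w ∧
    ∀ l : List ℕ, IsReducedWord 4 l w → ∀ κ μ : YoungDiagram, μ ≤ κ → ∀ b : ℕ → ℕ,
      ¬ Iso 4 (demazureCrystal lam 4 l) (flaggedCrystal κ μ 4 b) := by
  refine ⟨lam, _, YoungDiagram.rowLens_ofRowLens_eq_self (by simp), rfl, reduced_213, ?_⟩
  intro l hl κ μ _ b
  rcases reduced_words l hl with rfl | rfl
  · exact main b
  · rw [demazure_eq]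
    exact main b

end Pool.Agent.Results.MP_5741ae_al.NotFlagged
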